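import Pool.Agent.MP_5f72fe_nt.H3.SpecC

/-! Local facts at the prime three for the maximal order, and the generator of intertwiners. -/

namespace Pool.Agent.MP_5f72fe_nt.H53

open Pool.Agent.MP_5f72fe_nt.H3

theorem mem_Rp {n : ℕ} {v : V} (h : v ∈ Rp n) :
    v.2.1 ^ 2 + 3 * v.1 ^ 2 + 3 * v.2.2 ^ 2 = n :=
  (Finset.mem_filter.1 h).2.1

theorem not_three {n : ℕ} {v : V} (hn : n % 12 = 7) (h : v ∈ Rp n) : ¬ (3 : ℤ) ∣ v.2.1 := by
  rintro ⟨t, ht⟩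
  have h1 := mem_Rp h
  rw [ht] at h1
  have h2 : (n : ℤ) = 3 * (3 * t ^ 2 + v.1 ^ 2 + v.2.2 ^ 2) := by linear_combination -h1
  omega

theorem sq_three {A B : ℤ} (h : (3 : ℤ) ∣ A ^ 2 + B ^ 2) : (3 : ℤ) ∣ A ∧ (3 : ℤ) ∣ B := by
  have hA : A % 3 = 0 ∨ A % 3 = 1 ∨ A % 3 = 2 := by omega
  have hB : B % 3 = 0 ∨ B % 3 = 1 ∨ B % 3 = 2 := by omega
  have h' : (A ^ 2 + B ^ 2) % 3 = 0 := Int.emod_eq_zero_of_dvd h
  rcases hA with hA | hA | hA <;> rcases hB with hB | hB | hB <;>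
    simp [pow_two, Int.add_emod, Int.mul_emod, hA, hB] at h' <;> omega

theorem nr_three {x : OO} (h : (3 : ℤ) ∣ nr x) :
    (3 : ℤ) ∣ x.re + x.imI ∧ (3 : ℤ) ∣ x.imJ + x.imK := by
  apply sq_three
  have : (x.re + x.imI) ^ 2 + (x.imJ + x.imK) ^ 2 =
      nr x + 3 * (x.re * x.imI + x.imJ * x.imK) := by
    simp only [nr]; ring
  rw [this]
  exact dvd_add h (dvd_mul_right _ _)

theorem three_nr {x : OO} (h1 : (3 : ℤ) ∣ x.re + x.imI) (h2 : (3 : ℤ) ∣ x.imJ + x.imK) :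
    (3 : ℤ) ∣ nr x := by
  have : nr x = (x.re + x.imI) * (x.re + x.imI) + (x.imJ + x.imK) * (x.imJ + x.imK) -
      3 * (x.re * x.imI + x.imJ * x.imK) := by
    simp only [nr]; ring
  rw [this]
  exact dvd_sub (dvd_add (h1.mul_right _) (h2.mul_right _)) (dvd_mul_right _ _)

theorem coords {x y : OO} (h : x = y) :
    x.re = y.re ∧ x.imI = y.imI ∧ x.imJ = y.imJ ∧ x.imK = y.imK := by
  subst h; exact ⟨rfl, rfl, rfl, rfl⟩

theorem ori (n : ℕ) (v w : V) (α : OO) (h3 : ¬ 3 ∣ nr α)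
    (h : α * emb v = emb w * α) : 3 ∣ v.2.1 - w.2.1 := by
  obtain ⟨a, y, b⟩ := v
  obtain ⟨a', y', b'⟩ := w
  obtain ⟨e1, e2, e3, e4⟩ := coords h
  simp only [emb, QuaternionAlgebra.re_mul, QuaternionAlgebra.imI_mul, QuaternionAlgebra.imJ_mul,
    QuaternionAlgebra.imK_mul] at e1 e2 e3 e4
  by_contra hne
  have hB : (3 : ℤ) ∣ (α.imJ + α.imK) * (y - y') :=
    ⟨α.re * a - α.imI * a + α.imJ * b - α.imK * b - a' * α.re + a' * α.imI + b' * α.imJ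
      - y' * α.imK, by linear_combination -e1 - e2⟩
  have hA : (3 : ℤ) ∣ (α.re + α.imI) * (y - y') :=
    ⟨-(α.re * b) + α.imI * b + α.imJ * a - α.imK * a + a' * α.imJ - a' * α.imK + b' * α.re
      - y' * α.imI, by linear_combination e3 + e4⟩
  have hA' := (Int.prime_three.dvd_or_dvd hA).resolve_right hne
  have hB' := (Int.prime_three.dvd_or_dvd hB).resolve_right hne
  exact h3 (three_nr hA' hB')

theorem three (n : ℕ) (v : V) (α : OO) (hn : n % 12 = 7) (hv : v ∈ Rp n)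
    (h : α * emb v = emb v * α) (h3 : 3 ∣ nr α) : ∃ β, α = 3 * β := by
  have hy := not_three hn hv
  obtain ⟨a, y, b⟩ := v
  obtain ⟨e1, -, -, e4⟩ := coords h
  simp only [emb, QuaternionAlgebra.re_mul, QuaternionAlgebra.imK_mul] at e1 e4
  obtain ⟨hA, ⟨t, ht⟩⟩ := nr_three h3
  have hs : (3 : ℤ) ∣ α.imK * y := ⟨2 * t * b - α.imK * b, by linear_combination -e1 + 2 * b * ht⟩
  obtain ⟨s, hs'⟩ := (Int.prime_three.dvd_or_dvd hs).resolve_right hy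
  have hr : α.imJ = 3 * (t - s) := by linear_combination ht - hs'
  have hq2 : 2 * (α.imI * y) = 2 * (3 * (a * (2 * (t - s) - s))) := by
    linear_combination e4 + 4 * a * hr - 2 * a * hs'
  have hq : (3 : ℤ) ∣ α.imI * y := ⟨a * (2 * (t - s) - s), by linarith⟩
  obtain ⟨q, hq'⟩ := (Int.prime_three.dvd_or_dvd hq).resolve_right hy
  obtain ⟨u, hu⟩ := hA
  refine ⟨⟨u - q, q, t - s, s⟩, ?_⟩
  have h30 : (3 : OO) = ⟨3, 0, 0, 0⟩ := rfl
  rw [h30]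
  ext <;> simp <;> omega

theorem gen (H : RowQO) (n : ℕ) (v w : V) (α : OO) (hn : n % 12 = 7) (hsf : Squarefree n)
    (hv : v ∈ Rp n) (hw : w ∈ Rp n) (hy : 3 ∣ v.2.1 - w.2.1)
    (hα : ∀ γ : OO, γ * emb w = emb v * γ → ∃ y, γ = y * α) : nr α = 1 := by
  obtain ⟨x, hx⟩ := H.half' n v (by omega) hv
  obtain ⟨x', hx'⟩ := H.half' n w (by omega) hw
  have sv := H.embSq v
  have sw := H.embSq w
  rw [mem_Rp hv, hx] at sv
  rw [mem_Rp hw, hx'] at sw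
  have h2 : (2 : OO) ≠ 0 := by
    intro h
    have := (coords h).1
    have h20 : (2 : OO) = ⟨2, 0, 0, 0⟩ := rfl
    rw [h20] at this
    simp at this
  have hint : ∀ δ : OO, (x * δ + δ * x' - δ) * emb w = emb v * (x * δ + δ * x' - δ) := by
    intro δ
    rw [hx, hx']
    have hc : ((n : ℤ) : OO) * δ = δ * ((n : ℤ) : OO) := (Int.cast_commute _ _).eq
    have e : (2 : OO) * ((x * δ + δ * x' - δ) * (2 * x' - 1) - (2 * x - 1) * (x * δ + δ * x' - δ))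
        = δ * ((2 * x' - 1) * (2 * x' - 1)) - ((2 * x - 1) * (2 * x - 1)) * δ := by
      simp only [two_mul]
      noncomm_ring
    rw [sv, sw, neg_mul, mul_neg, hc, sub_self] at e
    exact sub_eq_zero.1 ((H.noZero _ _ e).resolve_left h2)
  obtain ⟨y1, hy1⟩ := hα _ (hint 1)
  have hcom : ∀ δ : OO, nr α ∣ nr (δ * x - x * δ) := by
    intro δ
    obtain ⟨y2, hy2⟩ := hα _ (hint δ)
    have : δ * x - x * δ = (δ * y1 - y2) * α := by
      rw [sub_mul, mul_assoc, ← hy1, ← hy2]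
      noncomm_ring
    rw [this, H.nrMul]
    exact dvd_mul_left _ _
  have hg : nr α ∣ nr (x * 1 + 1 * x' - 1) := by
    rw [hy1, H.nrMul]
    exact dvd_mul_left _ _
  have hnv := mem_Rp hv
  have hy3 := not_three hn hv
  obtain ⟨a, y, b⟩ := v
  obtain ⟨a', y', b'⟩ := w
  have h20 : (2 : OO) = ⟨2, 0, 0, 0⟩ := rfl
  obtain ⟨-, e2, e3, e4⟩ := coords hx
  obtain ⟨-, -, e3', e4'⟩ := coords hx'
  rw [h20] at e2 e3 e4 e3' e4'
  simp [emb] at e2 e3 e4 e3' e4'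
  simp only at hy hy3 hnv
  have n3 : ¬ (3 : ℤ) ∣ nr α := by
    intro h
    have := (nr_three (h.trans hg)).2
    simp at this
    omega
  have c1 := hcom ⟨0, 1, 0, 0⟩
  have c2 := hcom ⟨0, 0, 1, 0⟩
  have c3 := hcom ⟨0, 1, 1, 0⟩
  have d1 : nr ((⟨0, 1, 0, 0⟩ : OO) * x - x * ⟨0, 1, 0, 0⟩) =
      3 * (x.imJ ^ 2 - x.imJ * x.imK + x.imK ^ 2) := by
    simp [nr]; ring
  have d2 : nr ((⟨0, 0, 1, 0⟩ : OO) * x - x * ⟨0, 0, 1, 0⟩) =
      3 * (x.imI ^ 2 + x.imK ^ 2) := by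
    simp [nr]; ring
  have d3 : nr ((⟨0, 1, 1, 0⟩ : OO) * x - x * ⟨0, 1, 1, 0⟩) =
      3 * (x.imJ ^ 2 - x.imJ * x.imK + x.imK ^ 2) + 3 * (x.imI ^ 2 + x.imK ^ 2)
        - 3 * (x.imI * (2 * x.imJ - x.imK)) := by
    simp [nr]; ring
  rw [d1] at c1
  rw [d2] at c2
  rw [d3] at c3
  have c4 : nr α ∣ 3 * (x.imI * (2 * x.imJ - x.imK)) := by
    have := dvd_sub (dvd_add c1 c2) c3
    rwa [sub_sub_cancel] at this
  have hpos : 0 < nr α := by
    apply H.nrPos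
    rintro rfl
    exact n3 (by simp [nr])
  by_contra hne
  obtain ⟨p, hp, hpd⟩ := Int.exists_prime_and_dvd (n := nr α) (by omega)
  have p3 : ¬ p ∣ 3 := fun h =>
    n3 (((hp.dvd_prime_iff_associated Int.prime_three).1 h).symm.dvd.trans hpd)
  have q1 := (hp.dvd_or_dvd (hpd.trans c1)).resolve_left p3
  have q2 := (hp.dvd_or_dvd (hpd.trans c2)).resolve_left p3
  have q4 := (hp.dvd_or_dvd (hpd.trans c4)).resolve_left p3
  have ey : y = 2 * x.imJ - x.imK := by omega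
  rw [← ey, ← e2] at q4
  rw [← e2, ← e4] at q2
  have q1' : p ∣ y ^ 2 + 3 * b ^ 2 := by
    have : y ^ 2 + 3 * b ^ 2 = 4 * (x.imJ ^ 2 - x.imJ * x.imK + x.imK ^ 2) := by
      rw [ey, e4]; ring
    rw [this]
    exact q1.mul_left _
  have all : p ∣ a ∧ p ∣ y ∧ p ∣ b := by
    rcases hp.dvd_or_dvd q4 with ha | hy'
    · have hb : p ∣ b := hp.dvd_of_dvd_pow ((dvd_add_right (dvd_pow ha two_ne_zero)).1 q2)
      have hy' : p ∣ y :=
        hp.dvd_of_dvd_pow ((dvd_add_left ((dvd_pow hb two_ne_zero).mul_left 3)).1 q1')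
      exact ⟨ha, hy', hb⟩
    · have hb : p ∣ b := hp.dvd_of_dvd_pow ((hp.dvd_or_dvd
        ((dvd_add_right (dvd_pow hy' two_ne_zero)).1 q1')).resolve_left p3)
      have ha : p ∣ a := hp.dvd_of_dvd_pow ((dvd_add_left (dvd_pow hb two_ne_zero)).1 q2)
      exact ⟨ha, hy', hb⟩
  obtain ⟨⟨a1, ha⟩, ⟨y1', hy'⟩, ⟨b1, hb⟩⟩ := all
  have hpp : p * p ∣ (n : ℤ) :=
    ⟨y1' ^ 2 + 3 * a1 ^ 2 + 3 * b1 ^ 2, by rw [← hnv, ha, hy', hb]; ring⟩
  exact hp.not_isUnit ((Int.squarefree_natCast.2 hsf) p hpp)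

theorem rowQG : OfQG := fun H =>
  { gen := fun n v w α hn hsf hv hw hy hα => gen H n v w α hn hsf hv hw hy hα
    ori := fun n v w α _ _ _ h3 h => ori n v w α h3 h
    three := fun n v α hn hv h h3 => three n v α hn hv h h3 }

end Pool.Agent.MP_5f72fe_nt.H53
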